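import Mathlib
import Pool.Agent.N417.CL.G

/-!
# Pairs with a fixed sum between consecutive squares: the critical density in random sets

A random set of integers is built one integer at a time, with arbitrary dependence.  For a given `N` let `r N` be
the number of `k`, `2 ≤ k ≤ 2 N`, such that `N ^ 2 + k + 1` and `(N + 1) ^ 2 - k` are chosen.  The assertion
of Question 1 (`r N > 0` for all large `N`) is true if the conditional probabilities are at least
`κ √(log n) / n ^ (1/4)` with `2 κ ^ 2 > 1`, and false if they are at most this with `2 κ ^ 2 < 1`; and if they are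
asymptotic to this, the set of the limit points of `r N / log N` is determined.
-/

set_option autoImplicit false

open MeasureTheory Filter Set ProbabilityTheory
open scoped Topology

namespace Pool.Agent.Results.MP_e94e4b_nt.CriticalDensity

variable {Ω : Type}

/-- the conditional probability of choosing `n + 1`, given the decisions up to `n` -/
noncomputable def P [m : MeasurableSpace Ω] (μ : Measure Ω) (ℱ : Filtration ℕ m) (A : ℕ → Set Ω) (n : ℕ) (ω : Ω) : ℝ :=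
  (μ[(A (n + 1)).indicator (fun _ => (1 : ℝ)) | ℱ n]) ω

open Classical in
/-- the number of `k`, `2 ≤ k ≤ 2 N`, such that `N ^ 2 + k + 1` and `(N + 1) ^ 2 - k` are members of `S` -/
noncomputable def r (S : Set ℕ) (N : ℕ) : ℕ :=
  ((Finset.Icc 2 (2 * N)).filter (fun k => N ^ 2 + k + 1 ∈ S ∧ (N + 1) ^ 2 - k ∈ S)).card

/-- `x log x - x + 1` -/
noncomputable def h (x : ℝ) : ℝ := x * Real.log x - x + 1

/-- The limit points of the sequence `u` are exactly the points of `[a, b]`, and `u` is contained in every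
larger open interval up to finitely many terms. -/
def LimitSet (u : ℕ → ℝ) (a b : ℝ) : Prop :=
  {x | MapClusterPt x atTop u} = Icc a b ∧ ∀ ε : ℝ, 0 < ε → ∀ᶠ n in atTop, a - ε < u n ∧ u n < b + ε

open Pool.Agent.N740.HK Pool.Agent.R528.RM Pool.Agent.N417.LD Pool.Agent.N417.CL

lemma r_eq (A : ℕ → Set Ω) (N : ℕ) (ω : Ω) : (r {k | ω ∈ A k} N : ℝ) =
    ∑ k ∈ Finset.Icc 2 (2 * N), J1 A (N ^ 2 + k + 1) ω * J1 A ((N + 1) ^ 2 - k) ω := by
  classical
  unfold r
  rw [Finset.card_filter]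
  push_cast
  refine Finset.sum_congr rfl fun k _ => ?_
  unfold J1
  by_cases h1 : ω ∈ A (N ^ 2 + k + 1)
  · by_cases h2 : ω ∈ A ((N + 1) ^ 2 - k)
    · rw [if_pos ⟨h1, h2⟩, indicator_of_mem h1, indicator_of_mem h2, one_mul]
    · rw [if_neg (fun h => h2 h.2), indicator_of_notMem h2, mul_zero]
  · rw [if_neg (fun h => h1 h.1), indicator_of_notMem h1, zero_mul]

lemma r_bounds (A : ℕ → Set Ω) {N : ℕ} (hN : 2 ≤ N) (ω : Ω) :
    CN (BB A) (N ^ 2 + N) (N + 1) ω ≤ r {k | ω ∈ A k} N ∧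
    (r {k | ω ∈ A k} N : ℝ) ≤ 2 * CN (BB A) (N ^ 2 + N) (N + 1) ω ∧
    2 * CN (BB A) (N ^ 2 + N) (N + 1) ω - 3 ≤ r {k | ω ∈ A k} N := by
  rw [r_eq, CN_BB]
  exact sum_pairs (J := fun n => J1 A n ω) (fun n => J1_01 n ω) hN

lemma limitSet {u : ℕ → ℝ} {a b : ℝ}
    (h1 : ∀ x ∈ Icc a b, ∀ ε : ℝ, 0 < ε → ∀ K : ℕ, ∃ k, K ≤ k ∧ |u k - x| < ε)
    (h2 : ∀ ε : ℝ, 0 < ε → ∀ᶠ k : ℕ in atTop, ∃ x ∈ Icc a b, |u k - x| < ε) : LimitSet u a b := by
  constructor
  · ext x
    simp only [mem_ofPred_eq]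
    constructor
    · intro hx
      rw [← (isClosed_Icc (a := a) (b := b)).closure_eq, Metric.mem_closure_iff]
      intro ε hε
      have h3 := (mapClusterPt_iff_frequently.1 hx) (Metric.ball x (ε / 2)) (Metric.ball_mem_nhds _ (by positivity))
      obtain ⟨k, hk1, w, hw, hk2⟩ := (h3.and_eventually (h2 (ε / 2) (by positivity))).exists
      refine ⟨w, hw, ?_⟩
      rw [Metric.mem_ball, Real.dist_eq] at hk1
      rw [Real.dist_eq]
      have h4 := abs_sub_le x (u k) w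
      rw [abs_sub_comm x (u k)] at h4
      linarith
    · intro hx
      rw [mapClusterPt_iff_frequently]
      intro s hs
      obtain ⟨ε, hε, hs⟩ := Metric.mem_nhds_iff.1 hs
      rw [frequently_atTop]
      intro K
      obtain ⟨k, hk, hk2⟩ := h1 x hx ε hε K
      exact ⟨k, hk, hs (by rw [Metric.mem_ball, Real.dist_eq]; exact hk2)⟩
  · intro ε hε
    filter_upwards [h2 ε hε] with k hk
    obtain ⟨x, ⟨hx1, hx2⟩, hk⟩ := hk
    rw [abs_lt] at hk
    constructor <;> linarith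

end Pool.Agent.Results.MP_e94e4b_nt.CriticalDensity

open Pool.Agent.Results.MP_e94e4b_nt.CriticalDensity Pool.Agent.N740.HK Pool.Agent.R528.RM Pool.Agent.N417.LD
  Pool.Agent.N417.CL

/-- Let `S` be the random set of the chosen integers, `P n` the conditional probability of choosing `n + 1`,
given the decisions up to `n`, and let `r S N` be the number of `k`, `2 ≤ k ≤ 2 N`, with `N ^ 2 + k + 1` and
`(N + 1) ^ 2 - k` in `S`.
(1) If, almost surely, `P n ≥ κ √(log n) / n ^ (1/4)` for all large `n`, for some `κ > 0` with `2 κ ^ 2 > 1`, then,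
almost surely, `r S N > 0` for all large `N`.
(2) If, almost surely, `P n ≤ κ √(log n) / n ^ (1/4)` for all large `n`, for some `κ > 0` with `2 κ ^ 2 < 1`, then,
almost surely, `r S N = 0` for infinitely many `N`.
(3) If, almost surely, `P n` is asymptotic to `κ √(log n) / n ^ (1/4)`, `κ > 0`, then, almost surely, the limit points
of `r S N / (4 κ ^ 2 log N)` are exactly the points of the interval `[a, b]`, where `b > 1`, `2 κ ^ 2 h b = 1`,
`h x = x log x - x + 1`, and `0 ≤ a < 1`, `a = 0` if `2 κ ^ 2 ≤ 1` and `2 κ ^ 2 h a = 1` if `2 κ ^ 2 > 1`. -/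
theorem Pool.Agent.Results.MP_e94e4b_nt.CriticalDensity.result
    {Ω : Type} [m : MeasurableSpace Ω] (μ : Measure Ω) [IsProbabilityMeasure μ] (A : ℕ → Set Ω) (ℱ : Filtration ℕ m)
    (hA : ∀ n, MeasurableSet[ℱ n] (A n)) :
    (∀ κ : ℝ, 0 < κ → 1 < 2 * κ ^ 2 →
      (∀ᵐ ω ∂μ, ∀ᶠ n : ℕ in atTop, κ ≤ P μ ℱ A n ω * √(√(n : ℝ)) / √(Real.log n)) →
        ∀ᵐ ω ∂μ, ∀ᶠ N in atTop, 0 < r {k | ω ∈ A k} N) ∧
    (∀ κ : ℝ, 0 < κ → 2 * κ ^ 2 < 1 →
      (∀ᵐ ω ∂μ, ∀ᶠ n : ℕ in atTop, P μ ℱ A n ω * √(√(n : ℝ)) / √(Real.log n) ≤ κ) →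
        ∀ᵐ ω ∂μ, ∃ᶠ N in atTop, r {k | ω ∈ A k} N = 0) ∧
    (∀ κ : ℝ, 0 < κ → ∃ a b : ℝ, (0 ≤ a ∧ a < 1 ∧ 1 < b ∧ 2 * κ ^ 2 * h b = 1 ∧ (2 * κ ^ 2 ≤ 1 → a = 0) ∧
      (1 < 2 * κ ^ 2 → 2 * κ ^ 2 * h a = 1)) ∧
      ((∀ᵐ ω ∂μ, Tendsto (fun n : ℕ => P μ ℱ A n ω * √(√(n : ℝ)) / √(Real.log n)) atTop (𝓝 κ)) →
        ∀ᵐ ω ∂μ, LimitSet (fun N => r {k | ω ∈ A k} N / (4 * κ ^ 2 * Real.log N)) a b)) := by
  refine ⟨?_, ?_, ?_⟩
  · intro κ hκ hκ1 hd
    filter_upwards [pairs_pos hA hκ hκ1 hd] with ω hω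
    filter_upwards [hω, eventually_ge_atTop 2] with N hN hN2
    have h1 := (r_bounds A hN2 ω).1
    have h2 : (0 : ℝ) < r {k | ω ∈ A k} N := lt_of_lt_of_le hN h1
    exact_mod_cast h2
  · intro κ hκ hκ1 hd
    filter_upwards [pairs_zero hA hκ hκ1 hd] with ω hω
    rw [frequently_atTop]
    intro K
    obtain ⟨N, hN, h0⟩ := hω (max K 2)
    refine ⟨N, (le_max_left _ _).trans hN, ?_⟩
    have h1 := (r_bounds A ((le_max_right _ _).trans hN) ω).2.1
    rw [h0, mul_zero] at h1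
    have h2 : (r {k | ω ∈ A k} N : ℝ) = 0 := le_antisymm h1 (Nat.cast_nonneg _)
    exact_mod_cast h2
  · intro κ hκ
    have hc : 0 < 2 * κ ^ 2 := by positivity
    obtain ⟨a, b, ha0, ha1, hb1, hb2, ha2, ha3, hab⟩ := interval hc
    refine ⟨a, b, ⟨ha0, ha1, hb1, hb2, ha2, fun h => (ha3 h).2⟩, fun hd => ?_⟩
    filter_upwards [pairs_law hA hκ hd] with ω hω
    have close : ∀ {N : ℕ} {x ε : ℝ}, 2 ≤ N → 0 < ε → 3 / (κ ^ 2 * ε) ≤ Real.log N →
        |CN (BB A) (N ^ 2 + N) (N + 1) ω / Real.log N - 2 * κ ^ 2 * x| < κ ^ 2 * ε →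
        |r {k | ω ∈ A k} N / (4 * κ ^ 2 * Real.log N) - x| < ε := by
      intro N x ε hN hε hL h2
      have hL0 : 0 < Real.log N := lt_of_lt_of_le (by positivity) hL
      obtain ⟨b1, b2, b3⟩ := r_bounds A hN ω
      set C := CN (BB A) (N ^ 2 + N) (N + 1) ω
      set R : ℝ := ((r {k | ω ∈ A k} N : ℕ) : ℝ)
      have e : R / (4 * κ ^ 2 * Real.log N) - x = ((R - 2 * C) / Real.log N + 2 * (C / Real.log N - 2 * κ ^ 2 * x)) / (4 * κ ^ 2) := by
        field_simp
        ring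
      rw [e, abs_div, abs_of_pos (show (0 : ℝ) < 4 * κ ^ 2 by positivity), div_lt_iff₀ (by positivity)]
      have h4 : |(R - 2 * C) / Real.log N| ≤ κ ^ 2 * ε := by
        rw [abs_div, abs_of_pos hL0, div_le_iff₀ hL0]
        rw [div_le_iff₀ (by positivity)] at hL
        rw [abs_le]
        constructor <;> linarith
      have h5 := abs_add_le ((R - 2 * C) / Real.log N) (2 * (C / Real.log N - 2 * κ ^ 2 * x))
      rw [abs_mul, abs_of_pos (show (0 : ℝ) < 2 by norm_num)] at h5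
      have h6 : 0 < κ ^ 2 * ε := by positivity
      linarith
    refine limitSet ?_ ?_
    · intro x hx ε hε K
      obtain ⟨hx0, hx1⟩ := (hab x).2 hx
      obtain ⟨k1, hk1⟩ := eventually_atTop.1 (tendsto_logN.eventually_ge_atTop (3 / (κ ^ 2 * ε)))
      obtain ⟨k, hk, b1⟩ := hω.1 x hx0 hx1 (κ ^ 2 * ε) (by positivity) (max K (max k1 2))
      have hkK : K ≤ k := (le_max_left _ _).trans hk
      have hkk : k1 ≤ k := ((le_max_left _ _).trans (le_max_right _ _)).trans hk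
      have hk2 : 2 ≤ k := ((le_max_right _ _).trans (le_max_right _ _)).trans hk
      exact ⟨k, hkK, close hk2 hε (hk1 k hkk) b1⟩
    · intro ε hε
      filter_upwards [hω.2 (κ ^ 2 * ε) (by positivity), tendsto_logN.eventually_ge_atTop (3 / (κ ^ 2 * ε)),
        eventually_ge_atTop 2] with k hk hL hk2
      obtain ⟨x, hx0, hx1, b1⟩ := hk
      exact ⟨x, (hab x).1 ⟨hx0, hx1⟩, close hk2 hε hL b1⟩
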