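import Mathlib
import Pool.Agent.N732.GX.SymA

set_option autoImplicit false

/-!
# Pairs with a given sum near the middle in growing-sieve random models, true singular series

Sequential random models `S` of the primes, sieved by a GROWING set of small primes (as in the
Cramér–Granville model), with no independence: the integers are decided one after the other; an integer
`n` of the dyadic block `[2^j, 2^(j+1))` can be chosen only if no prime of `P j` divides it, where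
`∑ p ∈ P j, log p = o(j)` and `P j` contains all the primes up to `y j`, `y j * log (y j) / j → ∞` (for
instance `P j` is the set of all the primes up to `j / log log j`), and the conditional probability of
choosing such an `n`, given the past, is `~ ∏ p ∈ P j, (1 - 1/p)⁻¹ / log n`.
-/

open MeasureTheory Filter
open scoped Topology

namespace Pool.Agent.Results.MP_e94e4b_nt.GrowingSieve

/-- the singular series of Goldbach's problem (for even `n`) -/
noncomputable def sing (n : ℕ) : ℝ :=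
  2 * (∏' p : {p : ℕ // p.Prime ∧ 2 < p}, (1 - 1 / (((p.1 : ℕ) : ℝ) - 1) ^ 2)) *
    ∏ p ∈ n.primeFactors.filter (fun p : ℕ => 2 < p), (((p : ℝ) - 1) / ((p : ℝ) - 2))

/-- the number of `k`, `2 ≤ k ≤ 2 N`, such that `N^2 + k + 1` and `(N + 1)^2 - k` are in `S` -/
noncomputable def pairs (S : Set ℕ) (N : ℕ) : ℕ :=
  {k : ℕ | 2 ≤ k ∧ k ≤ 2 * N ∧ N ^ 2 + k + 1 ∈ S ∧ (N + 1) ^ 2 - k ∈ S}.ncard

/-- the number of the `p` among the `H` integers just below `n / 2` such that `p` and `n - p` are in `S` -/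
noncomputable def near (S : Set ℕ) (n H : ℕ) : ℕ :=
  {p : ℕ | p < n / 2 ∧ n / 2 ≤ p + H ∧ p ∈ S ∧ n - p ∈ S}.ncard

open Pool.Agent.R528.RM Pool.Agent.N732.GX

variable {Ω : Type}

lemma In_eq (A : ℕ → Set Ω) (n : ℕ) (ω : Ω) [Decidable (ω ∈ A n)] : In A n ω = if ω ∈ A n then 1 else 0 := by
  unfold In
  by_cases h : ω ∈ A n
  · rw [if_pos h, Set.indicator_of_mem h]
  · rw [if_neg h, Set.indicator_of_notMem h]

lemma near_eq (A : ℕ → Set Ω) (ω : Ω) {n H : ℕ} (hev : Even n) (hH : 8 * H ≤ n) : (near {m | ω ∈ A m} n H : ℝ) = RS A n H ω := by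
  classical
  obtain ⟨m, hm⟩ := hev
  have h1 : {p : ℕ | p < n / 2 ∧ n / 2 ≤ p + H ∧ p ∈ {m | ω ∈ A m} ∧ n - p ∈ {m | ω ∈ A m}} =
      (((Finset.range H).filter (fun i => ω ∈ A (n / 2 - 1 - i) ∧ ω ∈ A (n - n / 2 + 1 + i))).image
        (fun i => n / 2 - 1 - i) : Finset ℕ) := by
    ext p
    simp only [Set.mem_ofPred_eq, Finset.coe_image, Finset.coe_filter, Finset.mem_range, Set.mem_image]
    constructor
    · rintro ⟨h1, h2, h3, h4⟩
      refine ⟨n / 2 - 1 - p, ⟨by omega, ?_, ?_⟩, by omega⟩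
      · rwa [show n / 2 - 1 - (n / 2 - 1 - p) = p by omega]
      · rwa [show n - n / 2 + 1 + (n / 2 - 1 - p) = n - p by omega]
    · rintro ⟨i, ⟨h1, h2, h3⟩, rfl⟩
      refine ⟨by omega, by omega, h2, ?_⟩
      rwa [show n - (n / 2 - 1 - i) = n - n / 2 + 1 + i by omega]
  unfold near RS
  rw [h1, Set.ncard_coe_finset, Finset.card_image_of_injOn]
  · rw [Finset.card_filter]
    push_cast
    refine Finset.sum_congr rfl fun i _ => ?_
    rw [In_eq, In_eq]
    by_cases ha : ω ∈ A (n / 2 - 1 - i)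
    · by_cases hb : ω ∈ A (n - n / 2 + 1 + i)
      · rw [if_pos ⟨ha, hb⟩, if_pos ha, if_pos hb, one_mul]
      · rw [if_neg (fun h => hb h.2), if_neg hb, mul_zero]
    · rw [if_neg (fun h => ha h.1), if_neg ha, zero_mul]
  · intro i hi j hj h
    rw [Finset.mem_coe, Finset.mem_filter, Finset.mem_range] at hi hj
    simp only at h
    omega

lemma RS_succ (A : ℕ → Set Ω) (n H : ℕ) (ω : Ω) : RS A n H ω ≤ RS A n (H + 1) ω ∧ RS A n (H + 1) ω ≤ RS A n H ω + 1 := by
  unfold RS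
  rw [Finset.sum_range_succ]
  have h1 := In_nonneg (A := A) (n / 2 - 1 - H) ω
  have h2 := In_nonneg (A := A) (n - n / 2 + 1 + H) ω
  have h3 := In_le (A := A) (n / 2 - 1 - H) ω
  have h4 := In_le (A := A) (n - n / 2 + 1 + H) ω
  have h5 : In A (n / 2 - 1 - H) ω * In A (n - n / 2 + 1 + H) ω ≤ 1 := mul_le_one₀ h3 h2 h4
  constructor
  · nlinarith [mul_nonneg h1 h2]
  · linarith

/-- the pairs of the page -/
lemma pairs_close (A : ℕ → Set Ω) (ω : Ω) {N : ℕ} (hN : 3 ≤ N) :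
    |(pairs {m | ω ∈ A m} N : ℝ) - 2 * RS A (2 * N ^ 2 + 2 * N + 2) N ω| ≤ 3 := by
  classical
  set n := 2 * N ^ 2 + 2 * N + 2 with hn
  have hn2 : n / 2 = N ^ 2 + N + 1 := by omega
  have hn3 : n - n / 2 = N ^ 2 + N + 1 := by omega
  have hsq : (N + 1) ^ 2 = N ^ 2 + 2 * N + 1 := by ring
  set f : ℕ → ℝ := fun k => In A (N ^ 2 + k + 1) ω * In A ((N + 1) ^ 2 - k) ω with hf
  have hf01 : ∀ k, 0 ≤ f k ∧ f k ≤ 1 := fun k =>
    ⟨mul_nonneg (In_nonneg _ _) (In_nonneg _ _), mul_le_one₀ (In_le _ _) (In_nonneg _ _) (In_le _ _)⟩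
  have h1 : (pairs {m | ω ∈ A m} N : ℝ) = ∑ k ∈ Finset.Icc 2 (2 * N), f k := by
    have h2 : {k : ℕ | 2 ≤ k ∧ k ≤ 2 * N ∧ N ^ 2 + k + 1 ∈ {m | ω ∈ A m} ∧ (N + 1) ^ 2 - k ∈ {m | ω ∈ A m}} =
        ((Finset.Icc 2 (2 * N)).filter (fun k => ω ∈ A (N ^ 2 + k + 1) ∧ ω ∈ A ((N + 1) ^ 2 - k)) : Finset ℕ) := by
      ext k
      simp only [Set.mem_ofPred_eq, Finset.coe_filter, Finset.mem_Icc]
      tauto
    unfold pairs
    rw [h2, Set.ncard_coe_finset, Finset.card_filter]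
    push_cast
    refine Finset.sum_congr rfl fun k _ => ?_
    simp only [hf]
    rw [In_eq, In_eq]
    by_cases ha : ω ∈ A (N ^ 2 + k + 1)
    · by_cases hb : ω ∈ A ((N + 1) ^ 2 - k)
      · rw [if_pos ⟨ha, hb⟩, if_pos ha, if_pos hb, one_mul]
      · rw [if_neg (fun h => hb h.2), if_neg hb, mul_zero]
    · rw [if_neg (fun h => ha h.1), if_neg ha, zero_mul]
  have h2 : ∑ k ∈ Finset.Icc 2 (2 * N), f k = ∑ k ∈ Finset.Ico 2 N, f k + f N + ∑ k ∈ Finset.Ico (N + 1) (2 * N + 1), f k := by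
    have e1 : Finset.Icc 2 (2 * N) = Finset.Ico 2 (2 * N + 1) := by
      ext k
      rw [Finset.mem_Icc, Finset.mem_Ico]
      omega
    rw [e1, ← Finset.sum_Ico_consecutive _ (show 2 ≤ N + 1 by omega) (show N + 1 ≤ 2 * N + 1 by omega),
      Finset.sum_Ico_succ_top (by omega)]
  have h3 : ∑ k ∈ Finset.Ico (N + 1) (2 * N + 1), f k = RS A n N ω := by
    rw [Finset.sum_Ico_eq_sum_range, show 2 * N + 1 - (N + 1) = N by omega]
    unfold RS
    refine Finset.sum_congr rfl fun i hi => ?_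
    have := Finset.mem_range.1 hi
    simp only [hf]
    rw [hn3, hn2, show N ^ 2 + (N + 1 + i) + 1 = N ^ 2 + N + 1 + 1 + i by omega,
      show (N + 1) ^ 2 - (N + 1 + i) = N ^ 2 + N + 1 - 1 - i by omega, mul_comm]
  have h4 : ∑ k ∈ Finset.Ico 2 N, f k = RS A n (N - 2) ω := by
    rw [Finset.sum_Ico_eq_sum_range, ← Finset.sum_range_reflect]
    unfold RS
    refine Finset.sum_congr rfl fun i hi => ?_
    have := Finset.mem_range.1 hi
    simp only [hf]
    rw [hn3, hn2, show N ^ 2 + (2 + (N - 2 - 1 - i)) + 1 = N ^ 2 + N + 1 - 1 - i by omega,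
      show (N + 1) ^ 2 - (2 + (N - 2 - 1 - i)) = N ^ 2 + N + 1 + 1 + i by omega]
  have h5 := RS_succ A n (N - 2) ω
  have h6 := RS_succ A n (N - 2 + 1) ω
  rw [show N - 2 + 1 + 1 = N by omega] at h6
  rw [h1, h2, h3, h4, abs_le]
  have h7 := hf01 N
  constructor <;> linarith [h5.1, h5.2, h6.1, h6.2, h7.1, h7.2]

lemma log_n (N : ℕ) (hN : 3 ≤ N) : 2 * Real.log N ≤ Real.log ((2 * N ^ 2 + 2 * N + 2 : ℕ) : ℝ) ∧
    Real.log ((2 * N ^ 2 + 2 * N + 2 : ℕ) : ℝ) ≤ 2 * Real.log N + 2 := by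
  have hNR : (3 : ℝ) ≤ N := by exact_mod_cast hN
  have h1 : (N : ℝ) ^ 2 ≤ ((2 * N ^ 2 + 2 * N + 2 : ℕ) : ℝ) := by push_cast; nlinarith
  have h2 : ((2 * N ^ 2 + 2 * N + 2 : ℕ) : ℝ) ≤ 4 * (N : ℝ) ^ 2 := by push_cast; nlinarith
  have h3 := Real.log_le_log (by positivity) h1
  have h4 := Real.log_le_log (by positivity) h2
  rw [Real.log_pow] at h3
  rw [Real.log_mul (by norm_num) (by positivity), Real.log_pow] at h4
  have h5 : Real.log 4 ≤ 2 := by
    have : (4 : ℝ) = 2 ^ 2 := by norm_num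
    rw [this, Real.log_pow]
    have := Real.log_two_lt_d9
    push_cast
    linarith
  push_cast at h3 h4 ⊢
  constructor <;> linarith

end Pool.Agent.Results.MP_e94e4b_nt.GrowingSieve

open Pool.Agent.Results.MP_e94e4b_nt.GrowingSieve Pool.Agent.R528.RM Pool.Agent.N732.GX

/-- Let `A n` be the event that `n` belongs to a random set `S`, adapted to a filtration `ℱ`, with the
sieving sets `P` and the conditional probabilities as in the header.  Almost surely:
(1) with `n = 2 N^2 + 2 N + 2`, the number of `k` of the problem is `~ 𝔖(n) N / (2 (log N)^2)`;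
(2) for every `θ > 0`, uniformly over all even `n` and all `n^θ ≤ H ≤ n / 8`, the number of the `p` among
the `H` integers just below `n / 2` such that `p`, `n - p` are in `S` is `~ 𝔖(n) H / (log n)^2`;
(3) for every `θ > 0` and all large `N` there is `N < k ≤ N + N^θ`, `k ≤ 2 N`, such that `N^2 + k + 1` and
`(N + 1)^2 - k` are in `S`. -/
theorem Pool.Agent.Results.MP_e94e4b_nt.GrowingSieve.result
    {Ω : Type} [mΩ : MeasurableSpace Ω] (μ : Measure Ω) [IsProbabilityMeasure μ]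
    (ℱ : Filtration ℕ mΩ) (A : ℕ → Set Ω) (hA : ∀ n, MeasurableSet[ℱ n] (A n))
    (P : ℕ → Finset ℕ) (hP : ∀ j, ∀ p ∈ P j, p.Prime) (y : ℕ → ℕ)
    (hgrowth : Tendsto (fun j : ℕ => (∑ p ∈ P j, Real.log p) / j) atTop (𝓝 0))
    (hy : Tendsto (fun j : ℕ => (y j : ℝ) * Real.log (y j) / j) atTop atTop)
    (hsmall : ∀ᶠ j : ℕ in atTop, ∀ p : ℕ, p.Prime → p ≤ y j → p ∈ P j)
    (hcop : ∀ n, (∃ p ∈ P (Nat.log 2 n), p ∣ n) → A n = ∅)
    (hd : ∀ᵐ ω ∂μ, ∀ ε : ℝ, 0 < ε → ∀ᶠ n : ℕ in atTop, (∀ p ∈ P (Nat.log 2 (n + 1)), ¬ p ∣ n + 1) →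
      |(μ[(A (n + 1)).indicator (fun _ => (1 : ℝ)) | ℱ n]) ω * Real.log ((n : ℝ) + 1) *
        ∏ p ∈ P (Nat.log 2 (n + 1)), (1 - 1 / (p : ℝ)) - 1| ≤ ε) :
    ∀ᵐ ω ∂μ,
      (∀ ε : ℝ, 0 < ε → ∀ᶠ N : ℕ in atTop,
        |(pairs {n : ℕ | ω ∈ A n} N : ℝ) * (2 * Real.log N ^ 2) / (sing (2 * N ^ 2 + 2 * N + 2) * N) - 1| ≤ ε) ∧
      (∀ θ ε : ℝ, 0 < θ → 0 < ε → ∀ᶠ n : ℕ in atTop, Even n → ∀ H : ℕ, (n : ℝ) ^ θ ≤ H → 8 * H ≤ n →
        |(near {n : ℕ | ω ∈ A n} n H : ℝ) * Real.log n ^ 2 / (sing n * H) - 1| ≤ ε) ∧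
      (∀ θ : ℝ, 0 < θ → ∀ᶠ N : ℕ in atTop, ∃ k : ℕ, N < k ∧ (k : ℝ) ≤ N + (N : ℝ) ^ θ ∧ k ≤ 2 * N ∧
        ω ∈ A (N ^ 2 + k + 1) ∧ ω ∈ A ((N + 1) ^ 2 - k)) := by
  classical
  have hW : Tendsto (fun j : ℕ => Real.log (∏ p ∈ P j, p : ℕ) / j) atTop (𝓝 0) := by
    refine hgrowth.congr fun j => ?_
    rw [Nat.cast_prod, Real.log_prod]
    intro p hp
    exact_mod_cast (hP j p hp).ne_zero
  have hdens := Pool.Agent.N732.GS.dens_growing (μ := μ) (ℱ := ℱ) (A := A) P hP hW hcop (fun ε _ => ε) hd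
  obtain ⟨c, hc0, hc⟩ := Pool.Agent.N732.GS.sing_lower 2
  have hsing : ∀ n, 0 < n → Even n → Pool.Agent.N732.GS.sing {0, n} = sing n := fun n h1 h2 =>
    Pool.Agent.N732.GS.sing_pair h1 h2
  have hsc : ∀ n, 0 < n → Even n → c ≤ sing n := by
    intro n h1 h2
    rw [← hsing n h1 h2]
    exact hc {0, n} (Pool.Agent.N732.GS.pair_card h1) (Pool.Agent.N732.GS.sing_pair_pos h2).ne'
  filter_upwards [sym_pairs (μ := μ) hA P hP hW y hy hsmall hdens] with ω hω
  -- the general law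
  have hgen : ∀ θ ε : ℝ, 0 < θ → 0 < ε → ∀ᶠ n : ℕ in atTop, Even n → ∀ H : ℕ, (n : ℝ) ^ θ ≤ H → 8 * H ≤ n →
      0 < (H : ℝ) ∧ |RS A n H ω * Real.log n ^ 2 / (sing n * H) - 1| ≤ ε := by
    intro θ ε hθ hε
    filter_upwards [hω θ ε hθ hε, eventually_ge_atTop 16] with n hn h16 hev H hH1 hH2
    have h1 := hn hev H hH1 hH2
    have hn0 : (16 : ℝ) ≤ n := by exact_mod_cast h16
    have hH0 : (0 : ℝ) < H := lt_of_lt_of_le (Real.rpow_pos_of_pos (by linarith) _) hH1
    rw [hsing n (by omega) hev] at h1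
    have hs0 : 0 < sing n := lt_of_lt_of_le hc0 (hsc n (by omega) hev)
    have hl : 0 < Real.log (n : ℝ) := Real.log_pos (by linarith)
    refine ⟨hH0, ?_⟩
    have e1 : RS A n H ω * Real.log n ^ 2 / (sing n * H) - 1 =
        (RS A n H ω - sing n * (H / Real.log n ^ 2)) * (Real.log n ^ 2 / (sing n * H)) := by
      have h2 : sing n ≠ 0 := hs0.ne'
      have h3 : (H : ℝ) ≠ 0 := hH0.ne'
      have h4 : Real.log (n : ℝ) ≠ 0 := hl.ne'
      field_simp
    rw [e1, abs_mul, abs_of_pos (show 0 < Real.log n ^ 2 / (sing n * H) by positivity)]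
    calc |RS A n H ω - sing n * (H / Real.log n ^ 2)| * (Real.log n ^ 2 / (sing n * H)) ≤
          (ε * (sing n * (H / Real.log n ^ 2))) * (Real.log n ^ 2 / (sing n * H)) :=
          mul_le_mul_of_nonneg_right h1 (by positivity)
      _ = ε := by
          have h2 : sing n ≠ 0 := hs0.ne'
          have h3 : (H : ℝ) ≠ 0 := hH0.ne'
          have h4 : Real.log (n : ℝ) ≠ 0 := hl.ne'
          field_simp
  have htn : Tendsto (fun N : ℕ => 2 * N ^ 2 + 2 * N + 2) atTop atTop := by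
    refine tendsto_atTop_mono (fun N => ?_) tendsto_id
    show N ≤ 2 * N ^ 2 + 2 * N + 2
    omega
  have hevn : ∀ N : ℕ, Even (2 * N ^ 2 + 2 * N + 2) := fun N => ⟨N ^ 2 + N + 1, by ring⟩
  -- exponents
  have hexp : ∀ θ : ℝ, 0 < θ → ∀ᶠ N : ℕ in atTop, (((2 * N ^ 2 + 2 * N + 2 : ℕ) : ℝ)) ^ (θ / 4) ≤ (N : ℝ) ^ θ - 1 := by
    intro θ hθ
    have h1 : Tendsto (fun N : ℕ => (N : ℝ) ^ (θ / 4)) atTop atTop :=
      (tendsto_rpow_atTop (by positivity)).comp tendsto_natCast_atTop_atTop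
    filter_upwards [h1.eventually_ge_atTop (2 + (4 : ℝ) ^ (θ / 4)), eventually_ge_atTop 3] with N hN hN3
    have hNR : (3 : ℝ) ≤ N := by exact_mod_cast hN3
    have h2 : ((2 * N ^ 2 + 2 * N + 2 : ℕ) : ℝ) ≤ 4 * (N : ℝ) ^ 2 := by push_cast; nlinarith
    set t := (N : ℝ) ^ (θ / 4) with ht
    set q := (4 : ℝ) ^ (θ / 4) with hq
    have hq0 : 0 < q := Real.rpow_pos_of_pos (by norm_num) _
    have h3 : (((2 * N ^ 2 + 2 * N + 2 : ℕ) : ℝ)) ^ (θ / 4) ≤ q * t ^ 2 := by
      refine (Real.rpow_le_rpow (Nat.cast_nonneg _) h2 (by positivity)).trans (le_of_eq ?_)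
      rw [Real.mul_rpow (by norm_num) (by positivity), ← Real.rpow_natCast (N : ℝ) 2, ← Real.rpow_mul (by linarith),
        ← Real.rpow_natCast t 2, ht, ← Real.rpow_mul (by linarith)]
      congr 2
      push_cast
      ring
    have h4 : (N : ℝ) ^ θ = t ^ 4 := by
      rw [ht, ← Real.rpow_natCast, ← Real.rpow_mul (by linarith)]
      congr 1
      push_cast
      ring
    rw [h4]
    refine h3.trans ?_
    have h5 : 2 ≤ t := by linarith
    have h6 : q * t ^ 2 ≤ (t - 2) * t ^ 2 := mul_le_mul_of_nonneg_right (by linarith) (by positivity)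
    have h7 : (t - 2) * t ^ 2 ≤ t ^ 4 - 1 := by nlinarith [sq_nonneg t, sq_nonneg (t ^ 2 - t), mul_nonneg (show 0 ≤ t - 2 by linarith) (sq_nonneg t)]
    linarith
  refine ⟨?_, ?_, ?_⟩
  · -- (1)
    intro ε hε
    have hlogt : Tendsto (fun N : ℕ => Real.log (N : ℝ)) atTop atTop := Pool.Agent.R528.RM.tendsto_log
    have hratio : Tendsto (fun N : ℕ => (2 * Real.log (N : ℝ) / Real.log ((2 * N ^ 2 + 2 * N + 2 : ℕ) : ℝ)) ^ 2) atTop (𝓝 1) := by
      have h1 : Tendsto (fun N : ℕ => 1 - 1 / Real.log (N : ℝ)) atTop (𝓝 (1 - 0)) :=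
        tendsto_const_nhds.sub (tendsto_const_nhds.div_atTop hlogt)
      rw [sub_zero] at h1
      have h2 : Tendsto (fun N : ℕ => 2 * Real.log (N : ℝ) / Real.log ((2 * N ^ 2 + 2 * N + 2 : ℕ) : ℝ)) atTop (𝓝 1) := by
        refine tendsto_of_tendsto_of_tendsto_of_le_of_le' h1 tendsto_const_nhds ?_ ?_
        · filter_upwards [hlogt.eventually_ge_atTop 1, eventually_ge_atTop 3] with N hN hN3
          obtain ⟨g1, g2⟩ := log_n N hN3
          have hl : 0 < Real.log (N : ℝ) := by linarith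
          rw [le_div_iff₀ (by linarith)]
          have e1 : (1 - 1 / Real.log (N : ℝ)) * (2 * Real.log N + 2) = 2 * Real.log N - 2 / Real.log N := by
            field_simp
            ring
          have h3 : (1 - 1 / Real.log (N : ℝ)) * Real.log ((2 * N ^ 2 + 2 * N + 2 : ℕ) : ℝ) ≤ (1 - 1 / Real.log (N : ℝ)) * (2 * Real.log N + 2) := by
            apply mul_le_mul_of_nonneg_left g2
            have : 1 / Real.log (N : ℝ) ≤ 1 := by rw [div_le_one hl]; exact hN
            linarith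
          have h4 : 0 ≤ 2 / Real.log (N : ℝ) := by positivity
          linarith
        · filter_upwards [hlogt.eventually_ge_atTop 1, eventually_ge_atTop 3] with N hN hN3
          obtain ⟨g1, g2⟩ := log_n N hN3
          rw [div_le_one (by linarith)]
          exact g1
      have := h2.pow 2
      rwa [one_pow] at this
    have hsm : Tendsto (fun N : ℕ => 6 / c * (Real.log (N : ℝ) ^ 2 / N)) atTop (𝓝 (6 / c * 0)) := by
      refine Tendsto.const_mul _ ?_
      have h1 : Tendsto (fun x : ℝ => Real.log x ^ 2 / x) atTop (𝓝 0) :=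
        (Real.isLittleO_pow_log_id_atTop (n := 2)).tendsto_div_nhds_zero
      exact h1.comp tendsto_natCast_atTop_atTop
    rw [mul_zero] at hsm
    have hη : 0 < min (ε / 8) 1 := lt_min (by positivity) one_pos
    filter_upwards [htn.eventually (hgen (1 / 8) (min (ε / 8) 1) (by norm_num) hη), hratio.eventually (Metric.closedBall_mem_nhds _ hη),
      hsm.eventually (gt_mem_nhds (show (0 : ℝ) < ε / 2 by positivity)), hexp (1 / 2) (by norm_num), eventually_ge_atTop 3,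
      hlogt.eventually_ge_atTop 1] with N h1 h2 h3 h4 h5 h6
    have hNR : (3 : ℝ) ≤ N := by exact_mod_cast h5
    have hHN : (((2 * N ^ 2 + 2 * N + 2 : ℕ) : ℝ)) ^ (1 / 8 : ℝ) ≤ N := by
      have e1 : (1 / 2 : ℝ) / 4 = 1 / 8 := by norm_num
      rw [e1] at h4
      refine h4.trans ?_
      have : (N : ℝ) ^ (1 / 2 : ℝ) ≤ (N : ℝ) ^ (1 : ℝ) := Real.rpow_le_rpow_of_exponent_le (by linarith) (by norm_num)
      rw [Real.rpow_one] at this
      linarith
    have h8N : 8 * N ≤ 2 * N ^ 2 + 2 * N + 2 := by nlinarith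
    obtain ⟨_, g1⟩ := h1 (hevn N) N hHN h8N
    have g2 := pairs_close A ω h5
    set n := 2 * N ^ 2 + 2 * N + 2 with hn
    have hs0 : c ≤ sing n := hsc n (by omega) (hevn N)
    have hs : 0 < sing n := lt_of_lt_of_le hc0 hs0
    have hN0 : (0 : ℝ) < N := by linarith
    have hlN : 0 < Real.log (N : ℝ) := by linarith
    obtain ⟨l1, l2⟩ := log_n N h5
    rw [← hn] at l1 l2
    have hln : 0 < Real.log (n : ℝ) := by linarith
    rw [Real.dist_eq] at h2
    set r := (2 * Real.log (N : ℝ) / Real.log (n : ℝ)) ^ 2 with hr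
    set x := RS A n N ω * Real.log n ^ 2 / (sing n * N) with hx
    have e1 : (pairs {n : ℕ | ω ∈ A n} N : ℝ) * (2 * Real.log N ^ 2) / (sing n * N) - 1 =
        (x * r - 1) + ((pairs {n : ℕ | ω ∈ A n} N : ℝ) - 2 * RS A n N ω) * (2 * Real.log N ^ 2 / (sing n * N)) := by
      rw [hx, hr]
      field_simp
      ring
    rw [e1]
    refine (abs_add_le _ _).trans ?_
    have b1 : |x * r - 1| ≤ ε / 2 := by
      have a1 := abs_le.1 g1
      have a2 := abs_le.1 h2
      have a3 : min (ε / 8) 1 ≤ ε / 8 := min_le_left _ _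
      have a4 : min (ε / 8) 1 ≤ 1 := min_le_right _ _
      set m := min (ε / 8) 1 with hm
      have a5 : |x * r - 1| ≤ |x - 1| * |r| + |r - 1| := by
        have : x * r - 1 = (x - 1) * r + (r - 1) := by ring
        rw [this]
        refine (abs_add_le _ _).trans ?_
        rw [abs_mul]
      have a6 : |r| ≤ 2 := by
        rw [abs_le]
        constructor <;> linarith [a2.1, a2.2]
      have a7 : |x - 1| * |r| ≤ m * 2 := mul_le_mul g1 a6 (abs_nonneg _) hη.le
      linarith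
    have b2 : |((pairs {n : ℕ | ω ∈ A n} N : ℝ) - 2 * RS A n N ω) * (2 * Real.log N ^ 2 / (sing n * N))| ≤ ε / 2 := by
      rw [abs_mul, abs_of_pos (show 0 < 2 * Real.log N ^ 2 / (sing n * N) by positivity)]
      calc |(pairs {n : ℕ | ω ∈ A n} N : ℝ) - 2 * RS A n N ω| * (2 * Real.log N ^ 2 / (sing n * N)) ≤ 3 * (2 * Real.log N ^ 2 / (c * N)) := by
            apply mul_le_mul g2 _ (by positivity) (by norm_num)
            apply div_le_div_of_nonneg_left (by positivity) (by positivity)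
            exact mul_le_mul_of_nonneg_right hs0 hN0.le
        _ = 6 / c * (Real.log N ^ 2 / N) := by
            field_simp
            ring
        _ ≤ ε / 2 := h3.le
    linarith
  · -- (2)
    intro θ ε hθ hε
    filter_upwards [hgen θ ε hθ hε] with n hn hev H hH1 hH2
    rw [near_eq A ω hev hH2]
    exact (hn hev H hH1 hH2).2
  · -- (3)
    intro θ₀ hθ₀
    set θ := min θ₀ 1 with hθd
    have hθ : 0 < θ := lt_min hθ₀ one_pos
    have hθ1 : θ ≤ 1 := min_le_right _ _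
    have hθθ : θ ≤ θ₀ := min_le_left _ _
    filter_upwards [htn.eventually (hgen (θ / 4) (1 / 2) (by positivity) (by norm_num)), hexp θ hθ, eventually_ge_atTop 3] with N h1 h2 h3
    have hNR : (3 : ℝ) ≤ N := by exact_mod_cast h3
    have hNθ : (N : ℝ) ^ θ ≤ N := by
      have : (N : ℝ) ^ θ ≤ (N : ℝ) ^ (1 : ℝ) := Real.rpow_le_rpow_of_exponent_le (by linarith) hθ1
      rwa [Real.rpow_one] at this
    set H := ⌊(N : ℝ) ^ θ⌋₊ with hH
    have hp0 : 0 ≤ (N : ℝ) ^ θ := Real.rpow_nonneg (by linarith) _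
    have hH1 : (H : ℝ) ≤ (N : ℝ) ^ θ := Nat.floor_le hp0
    have hH2 : (N : ℝ) ^ θ - 1 ≤ H := by
      have := Nat.lt_floor_add_one ((N : ℝ) ^ θ)
      linarith
    have hHN : H ≤ N := by
      have : (H : ℝ) ≤ N := hH1.trans hNθ
      exact_mod_cast this
    obtain ⟨hH0, g1⟩ := h1 (hevn N) H (h2.trans hH2) (by nlinarith)
    set n := 2 * N ^ 2 + 2 * N + 2 with hn
    have hn2 : n / 2 = N ^ 2 + N + 1 := by omega
    have hn3 : n - n / 2 = N ^ 2 + N + 1 := by omega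
    have hs : 0 < sing n := lt_of_lt_of_le hc0 (hsc n (by omega) (hevn N))
    have hpos : 0 < RS A n H ω := by
      by_contra hcon
      push Not at hcon
      have h4 : RS A n H ω * Real.log n ^ 2 / (sing n * H) ≤ 0 :=
        div_nonpos_of_nonpos_of_nonneg (mul_nonpos_of_nonpos_of_nonneg hcon (by positivity)) (by positivity)
      have h5 := (abs_le.1 g1).1
      linarith
    unfold RS at hpos
    obtain ⟨i, hi, hi2⟩ := Finset.exists_lt_of_sum_lt (s := Finset.range H) (f := fun _ => (0 : ℝ)) (by simpa using hpos)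
    have hi' := Finset.mem_range.1 hi
    rw [hn3, hn2, In_eq, In_eq] at hi2
    have ha : ω ∈ A (N ^ 2 + N + 1 - 1 - i) := by
      by_contra h
      rw [if_neg h, zero_mul] at hi2
      exact lt_irrefl _ hi2
    have hb : ω ∈ A (N ^ 2 + N + 1 + 1 + i) := by
      by_contra h
      rw [if_neg h, mul_zero] at hi2
      exact lt_irrefl _ hi2
    have hsq : (N + 1) ^ 2 = N ^ 2 + 2 * N + 1 := by ring
    refine ⟨N + 1 + i, by omega, ?_, by omega, ?_, ?_⟩
    · have h4 : (N : ℝ) ^ θ ≤ (N : ℝ) ^ θ₀ := Real.rpow_le_rpow_of_exponent_le (by linarith) hθθ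
      have h5 : ((i : ℝ)) + 1 ≤ H := by exact_mod_cast hi'
      push_cast
      linarith
    · rwa [show N ^ 2 + (N + 1 + i) + 1 = N ^ 2 + N + 1 + 1 + i by omega]
    · rwa [show (N + 1) ^ 2 - (N + 1 + i) = N ^ 2 + N + 1 - 1 - i by omega]
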