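import Mathlib
import Pool.Agent.N315.PS.SymB

/-!
# The innermost prime pairs with a fixed sum in all sequential random models

The integers are decided one after the other and the conditional probability of choosing the integer `n + 1`, given
the decisions up to `n`, is asymptotic to `1 / log n`, almost surely.  Nothing else is assumed: no independence and
no rate of convergence.  The independent model of Cramér and the random sieve of Hawkins are examples.

The numbers `N ² + k + 1` and `(N + 1) ² - k` have the sum `2 (N ² + N + 1)`; `k` and `2 N - k` give the same pair.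
Almost surely, the number of the `k > N` with `k - N ≤ λ log ² (N ² + N + 1)` for which both numbers are chosen
follows the Poisson law with parameter `λ` (over the integers `N`).  In particular the distance from `N` to the
closest such `k`, divided by `log ² (N ² + N + 1)`, has asymptotically the exponential distribution with mean one.

The same is true for the symmetric pairs `x - m, x + m` around the members `x` of every sequence of integers
`x_0 < x_1 < ...` with `(x_(n+1) - x_n) / log ² x_n → ∞`.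

Proof. The integer `x + m` is tried when `x - m` has been chosen. The number of the trials is, for most members of
the sequence, asymptotic to `λ log x`, by a concentration inequality.  The conditional probability of exactly `r`
successes is bounded from above by the exact limit, and an exponential inequality for windows which do not overlap
gives the upper frequencies of all `r`, almost surely; as the limits have the sum one, these are the frequencies.
-/

set_option autoImplicit false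

open MeasureTheory Filter Set ProbabilityTheory Polynomial
open scoped Topology

namespace Pool.Agent.Results.MP_e94e4b_nt.InnermostPairs

variable {Ω : Type}

/-- `A n` is the event that `n` is chosen; adapted to `ℱ`; the conditional probability of `A (n + 1)` given
`ℱ n`, times `log n`, tends almost surely to one -/
def SequentialModel [m : MeasurableSpace Ω] (μ : Measure Ω) (ℱ : Filtration ℕ m) (A : ℕ → Set Ω) : Prop :=
  (∀ n, MeasurableSet[ℱ n] (A n)) ∧
  ∀ᵐ ω ∂μ, Tendsto (fun n : ℕ => (μ[(A (n + 1)).indicator (fun _ => (1 : ℝ)) | ℱ n]) ω * Real.log n) atTop (𝓝 1)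

/-- The model of Cramér: independent events, `n` is chosen with probability `1 / log n` for `n ≥ 3`. -/
def CramerModel [MeasurableSpace Ω] (μ : Measure Ω) (A : ℕ → Set Ω) : Prop :=
  (∀ n, MeasurableSet (A n)) ∧ iIndepSet A μ ∧ ∀ n : ℕ, 3 ≤ n → μ (A n) = ENNReal.ofReal (1 / Real.log n)

open Classical in
/-- The random sieve of Hawkins: `2` is chosen, and given the decisions up to `n ≥ 2` the number
`n + 1` is chosen with probability `∏ (1 - 1 / h)`, the product over the chosen `2 ≤ h ≤ n`. -/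
def HawkinsSieve [m : MeasurableSpace Ω] (μ : Measure Ω) (ℱ : Filtration ℕ m) (A : ℕ → Set Ω) : Prop :=
  (∀ n, MeasurableSet[ℱ n] (A n)) ∧ A 2 = univ ∧
  ∀ n, 2 ≤ n → μ[(A (n + 1)).indicator (fun _ => (1 : ℝ)) | ℱ n] =ᵐ[μ]
    fun ω => ∏ h ∈ Finset.Icc 2 n, if ω ∈ A h then 1 - 1 / (h : ℝ) else 1

/-- the number of the `k` with `N < k ≤ 2 N` and `k - N ≤ y` such that `N ² + k + 1` and `(N + 1) ² - k` are
elements of `S` -/
noncomputable def inner (S : Set ℕ) (N : ℕ) (y : ℝ) : ℕ :=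
  {k : ℕ | N < k ∧ k ≤ 2 * N ∧ (k : ℝ) - N ≤ y ∧ N ^ 2 + k + 1 ∈ S ∧ (N + 1) ^ 2 - k ∈ S}.ncard

/-- the number of the `m` with `0 < m ≤ y` such that `x + m` and `x - m` (that is, `a` with `a + m = x`) are
elements of `S` -/
noncomputable def pairs (S : Set ℕ) (x : ℕ) (y : ℝ) : ℕ :=
  {m : ℕ | 0 < m ∧ (m : ℝ) ≤ y ∧ (∃ a ∈ S, a + m = x) ∧ x + m ∈ S}.ncard

/-- the probability of `r` in the Poisson distribution with parameter `lam` -/
noncomputable def poisson (lam : ℝ) (r : ℕ) : ℝ := lam ^ r / (r.factorial : ℝ) * Real.exp (-lam)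

/-- the proportion of the `n < N` with the property `B` tends to `q` -/
def Proportion (B : ℕ → Prop) (q : ℝ) : Prop :=
  Tendsto (fun N : ℕ => ({n : ℕ | n < N ∧ B n}.ncard : ℝ) / N) atTop (𝓝 q)

open Pool.Agent.N740.HK Pool.Agent.R528.RM Pool.Agent.N315.CC Pool.Agent.N315.PL Pool.Agent.N315.PS

lemma prod_inv (A : ℕ → Set Ω) (n : ℕ) (ω : Ω) [DecidablePred fun h => ω ∈ A h] :
    (∏ h ∈ Finset.Icc 2 n, if ω ∈ A h then 1 - 1 / (h : ℝ) else 1) = (Y A n ω)⁻¹ := by
  unfold Y
  rw [← Finset.prod_inv_distrib]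
  refine Finset.prod_congr rfl fun h hh => ?_
  have h2 : (2 : ℝ) ≤ h := by exact_mod_cast (Finset.mem_Icc.1 hh).1
  by_cases hA : ω ∈ A h
  · rw [if_pos hA, if_pos hA, inv_div]
    field_simp
  · rw [if_neg hA, if_neg hA, inv_one]

lemma log_ratio : Tendsto (fun n : ℕ => (Real.log ((n + 1 : ℕ) : ℝ))⁻¹ * Real.log n) atTop (𝓝 1) := by
  have h1 : Tendsto (fun n : ℕ => Real.log ((n : ℝ) + 1) - Real.log n) atTop (𝓝 0) := by
    have h1 : Tendsto (fun n : ℕ => 1 + (1 : ℝ) / n) atTop (𝓝 (1 + 0)) :=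
      tendsto_const_nhds.add tendsto_one_div_atTop_nhds_zero_nat
    rw [add_zero] at h1
    have h2 := (Real.continuousAt_log (one_ne_zero)).tendsto.comp h1
    rw [Real.log_one] at h2
    refine h2.congr' ?_
    filter_upwards [eventually_gt_atTop 0] with n hn
    have hn' : (0 : ℝ) < n := by exact_mod_cast hn
    show Real.log (1 + 1 / (n : ℝ)) = _
    rw [← Real.log_div (by positivity) hn'.ne']
    congr 1
    field_simp
  have h2 : Tendsto (fun n : ℕ => Real.log ((n : ℝ) + 1)) atTop atTop :=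
    Real.tendsto_log_atTop.comp (tendsto_atTop_add_const_right _ _ tendsto_natCast_atTop_atTop)
  have h3 := h1.div_atTop h2
  have h4 : Tendsto (fun n : ℕ => 1 - (Real.log ((n : ℝ) + 1) - Real.log n) / Real.log ((n : ℝ) + 1)) atTop (𝓝 (1 - 0)) :=
    tendsto_const_nhds.sub h3
  rw [sub_zero] at h4
  refine h4.congr' ?_
  filter_upwards [h2.eventually_gt_atTop 0] with n hn
  push_cast
  field_simp
  ring

lemma prop_ev {E : Set ℕ} {B : ℕ → Prop} (h : ∀ᶠ n in atTop, n ∈ E ↔ B n) {q : ℝ}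
    (hE : Tendsto (fun X : ℕ => (cn E X : ℝ) / X) atTop (𝓝 q)) : Proportion B q := by
  obtain ⟨n₀, hn₀⟩ := eventually_atTop.1 h
  refine (cn_congr_lim (n₀ := n₀) (E' := {n | B n}) (fun n hn => hn₀ n hn) hE).congr fun X => ?_
  rw [cn_ncard]
  rfl

lemma pairs_eq (S : Set ℕ) {lam : ℝ} (hlam : 0 ≤ lam) {x : ℕ} (hx : LL lam 2 x < x) :
    pairs S x (lam * Real.log x ^ 2) = sy S (LL lam 2 x) x := by
  classical
  have h0 : 0 ≤ lam * Real.log (x : ℝ) ^ 2 := by positivity
  have h1 : {m : ℕ | 0 < m ∧ (m : ℝ) ≤ lam * Real.log x ^ 2 ∧ (∃ a ∈ S, a + m = x) ∧ x + m ∈ S} =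
      (((Finset.Icc 1 (LL lam 2 x)).filter (fun m => x - m ∈ S ∧ x + m ∈ S) : Finset ℕ) : Set ℕ) := by
    ext m
    simp only [Finset.coe_filter, Finset.mem_Icc, Set.mem_ofPred_eq]
    constructor
    · rintro ⟨k1, k2, ⟨a, ha, k3⟩, k4⟩
      refine ⟨⟨k1, Nat.le_floor k2⟩, ?_, k4⟩
      rw [show x - m = a by omega]
      exact ha
    · rintro ⟨⟨k1, k2⟩, k3, k4⟩
      exact ⟨k1, (Nat.le_floor_iff h0).1 k2, ⟨x - m, k3, by omega⟩, k4⟩
  unfold pairs
  rw [h1, Set.ncard_coe_finset]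
  unfold sy
  symm
  refine Finset.card_bij (fun r _ => r + 1) ?_ ?_ ?_
  · intro r hr
    have hr := Finset.mem_filter.1 hr
    have h2 := Finset.mem_range.1 hr.1
    exact Finset.mem_filter.2 ⟨Finset.mem_Icc.2 ⟨by omega, by omega⟩, hr.2⟩
  · intro a _ b _ hab
    have hab : a + 1 = b + 1 := hab
    omega
  · intro m hm
    have hm := Finset.mem_filter.1 hm
    have h2 := Finset.mem_Icc.1 hm.1
    have e : m - 1 + 1 = m := by omega
    refine ⟨m - 1, Finset.mem_filter.2 ⟨Finset.mem_range.2 (by omega), ?_⟩, e⟩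
    rw [e]
    exact hm.2

lemma inner_eq (S : Set ℕ) {lam : ℝ} {N : ℕ} (hN : LL lam 2 (N ^ 2 + N + 1) ≤ N) (hlam : 0 ≤ lam) :
    inner S N (lam * Real.log ((N ^ 2 + N + 1 : ℕ) : ℝ) ^ 2) = sy S (LL lam 2 (N ^ 2 + N + 1)) (N ^ 2 + N + 1) := by
  classical
  have h0 : 0 ≤ lam * Real.log ((N ^ 2 + N + 1 : ℕ) : ℝ) ^ 2 := by positivity
  have hsq : (N + 1) ^ 2 = N ^ 2 + 2 * N + 1 := by ring
  have h1 : {k : ℕ | N < k ∧ k ≤ 2 * N ∧ (k : ℝ) - N ≤ lam * Real.log ((N ^ 2 + N + 1 : ℕ) : ℝ) ^ 2 ∧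
      N ^ 2 + k + 1 ∈ S ∧ (N + 1) ^ 2 - k ∈ S} =
      (((Finset.Ioc N (N + LL lam 2 (N ^ 2 + N + 1))).filter (fun k => N ^ 2 + k + 1 ∈ S ∧ (N + 1) ^ 2 - k ∈ S) : Finset ℕ) : Set ℕ) := by
    ext k
    simp only [Finset.coe_filter, Finset.mem_Ioc, Set.mem_ofPred_eq]
    constructor
    · rintro ⟨k1, k2, k3, k4⟩
      have h2 : k - N ≤ LL lam 2 (N ^ 2 + N + 1) := by
        refine Nat.le_floor ?_
        rw [Nat.cast_sub k1.le]
        exact k3
      exact ⟨⟨k1, by omega⟩, k4⟩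
    · rintro ⟨⟨k1, k2⟩, k3⟩
      have h2 : k - N ≤ LL lam 2 (N ^ 2 + N + 1) := by omega
      have h3 : ((k - N : ℕ) : ℝ) ≤ lam * Real.log ((N ^ 2 + N + 1 : ℕ) : ℝ) ^ 2 := (Nat.le_floor_iff h0).1 h2
      rw [Nat.cast_sub k1.le] at h3
      exact ⟨k1, by omega, h3, k3⟩
  unfold inner
  rw [h1, Set.ncard_coe_finset]
  unfold sy
  symm
  refine Finset.card_bij (fun r _ => N + (r + 1)) ?_ ?_ ?_
  · intro r hr
    have hr := Finset.mem_filter.1 hr
    have h2 := Finset.mem_range.1 hr.1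
    refine Finset.mem_filter.2 ⟨Finset.mem_Ioc.2 ⟨by omega, by omega⟩, ?_, ?_⟩
    · rw [show N ^ 2 + (N + (r + 1)) + 1 = N ^ 2 + N + 1 + (r + 1) by ring]
      exact hr.2.2
    · rw [hsq, show N ^ 2 + 2 * N + 1 - (N + (r + 1)) = N ^ 2 + N + 1 - (r + 1) by omega]
      exact hr.2.1
  · intro a _ b _ hab
    have hab : N + (a + 1) = N + (b + 1) := hab
    omega
  · intro k hk
    have hk := Finset.mem_filter.1 hk
    have h2 := Finset.mem_Ioc.1 hk.1
    refine ⟨k - N - 1, Finset.mem_filter.2 ⟨Finset.mem_range.2 (by omega), ?_, ?_⟩, by omega⟩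
    · have h3 := hk.2.2
      rw [hsq, show N ^ 2 + 2 * N + 1 - k = N ^ 2 + N + 1 - (k - N - 1 + 1) by omega] at h3
      exact h3
    · have h3 := hk.2.1
      rw [show N ^ 2 + k + 1 = N ^ 2 + N + 1 + (k - N - 1 + 1) by omega] at h3
      exact h3

lemma mid_mono : StrictMono (fun N : ℕ => N ^ 2 + N + 1) := fun a b hab => by
  have h1 : a ^ 2 < b ^ 2 := Nat.pow_lt_pow_left hab (by norm_num)
  show a ^ 2 + a + 1 < b ^ 2 + b + 1
  omega

lemma mid_growth : Tendsto (fun N : ℕ => ((((N + 1) ^ 2 + (N + 1) + 1 : ℕ) : ℝ) - ((N ^ 2 + N + 1 : ℕ) : ℝ)) /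
    Real.log ((N ^ 2 + N + 1 : ℕ) : ℝ) ^ 2) atTop atTop := by
  have h1 : Tendsto (fun n : ℕ => (n : ℝ) / Real.log n ^ 2) atTop atTop := by
    have h2 := ((Real.isLittleO_pow_log_id_atTop (n := 2)).tendsto_div_nhds_zero).comp tendsto_natCast_atTop_atTop
    have h3 : Tendsto (fun n : ℕ => Real.log (n : ℝ) ^ 2 / (n : ℝ)) atTop (𝓝[>] 0) := by
      refine tendsto_nhdsWithin_iff.2 ⟨h2, ?_⟩
      filter_upwards [log_pos_ev, eventually_gt_atTop 0] with n hn hn0
      exact div_pos (pow_pos hn 2) (Nat.cast_pos.2 hn0)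
    refine h3.inv_tendsto_nhdsGT_zero.congr fun n => ?_
    simp
  refine tendsto_atTop_mono' _ ?_ ((h1.comp (tendsto_add_atTop_nat 1)).const_mul_atTop (show (0 : ℝ) < 1 / 2 by norm_num))
  filter_upwards [(tendsto_add_atTop_nat 1).eventually log_pos_ev, eventually_ge_atTop 2] with N hn hN2
  have hn : 0 < Real.log ((N + 1 : ℕ) : ℝ) := hn
  show 1 / 2 * (((N + 1 : ℕ) : ℝ) / Real.log ((N + 1 : ℕ) : ℝ) ^ 2) ≤ _
  have hN : (2 : ℝ) ≤ N := by exact_mod_cast hN2
  have h5 : ((((N + 1) ^ 2 + (N + 1) + 1 : ℕ) : ℝ) - ((N ^ 2 + N + 1 : ℕ) : ℝ)) = 2 * ((N + 1 : ℕ) : ℝ) := by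
    push_cast
    ring
  have h6 : Real.log ((N ^ 2 + N + 1 : ℕ) : ℝ) ≤ 2 * Real.log ((N + 1 : ℕ) : ℝ) := by
    have h7 := Real.log_le_log (show (0 : ℝ) < ((N ^ 2 + N + 1 : ℕ) : ℝ) by positivity)
      (show ((N ^ 2 + N + 1 : ℕ) : ℝ) ≤ ((N + 1 : ℕ) : ℝ) ^ 2 by
        push_cast
        nlinarith)
    rw [Real.log_pow] at h7
    exact_mod_cast h7
  have h8 : 0 < Real.log ((N ^ 2 + N + 1 : ℕ) : ℝ) := Real.log_pos (by
    push_cast
    nlinarith)
  rw [h5]
  have h9 : 1 / 2 * (((N + 1 : ℕ) : ℝ) / Real.log ((N + 1 : ℕ) : ℝ) ^ 2) = 2 * ((N + 1 : ℕ) : ℝ) / (2 * Real.log ((N + 1 : ℕ) : ℝ)) ^ 2 := by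
    field_simp
  rw [h9]
  exact div_le_div_of_nonneg_left (by positivity) (by positivity) (pow_le_pow_left₀ h8.le h6 2)

end Pool.Agent.Results.MP_e94e4b_nt.InnermostPairs

open Pool.Agent.Results.MP_e94e4b_nt.InnermostPairs Pool.Agent.N740.HK Pool.Agent.R528.RM Pool.Agent.N315.PS Pool.Agent.N315.CC Pool.Agent.N315.PL Polynomial

/-- The model of Cramér (for some filtration) and the random sieve of Hawkins are sequential models.  In every
sequential model: (1) almost surely, for all `λ > 0` and all `r`, the proportion of the `N` for which there are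
exactly `r` integers `k`, `N < k ≤ 2 N`, `k - N ≤ λ log ² (N ² + N + 1)`, with `N ² + k + 1` and `(N + 1) ² - k` both
chosen, is `λ ^ r / r! exp (-λ)`; (2) for every strictly increasing sequence `x` of integers with
`(x (n + 1) - x n) / log ² (x n) → ∞`, almost surely, for all `λ > 0` and all `r`, the proportion of the `n` for which
there are exactly `r` integers `m`, `0 < m ≤ λ log ² (x n)`, with `x n - m` and `x n + m` both chosen, is
`λ ^ r / r! exp (-λ)`. -/
theorem Pool.Agent.Results.MP_e94e4b_nt.InnermostPairs.result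
    {Ω : Type} [m : MeasurableSpace Ω] (μ : Measure Ω) [IsProbabilityMeasure μ] (A : ℕ → Set Ω) :
    (CramerModel μ A → ∃ ℱ : Filtration ℕ m, SequentialModel μ ℱ A) ∧
    (∀ ℱ : Filtration ℕ m, HawkinsSieve μ ℱ A → SequentialModel μ ℱ A) ∧
    (∀ ℱ : Filtration ℕ m, SequentialModel μ ℱ A →
      (∀ᵐ ω ∂μ, ∀ lam : ℝ, 0 < lam → ∀ r : ℕ,
        Proportion (fun N => inner {n | ω ∈ A n} N (lam * Real.log ((N ^ 2 + N + 1 : ℕ) : ℝ) ^ 2) = r) (poisson lam r)) ∧
      (∀ x : ℕ → ℕ, StrictMono x → Tendsto (fun n : ℕ => ((x (n + 1) : ℝ) - x n) / Real.log (x n) ^ 2) atTop atTop →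
        ∀ᵐ ω ∂μ, ∀ lam : ℝ, 0 < lam → ∀ r : ℕ,
          Proportion (fun n => pairs {n | ω ∈ A n} (x n) (lam * Real.log (x n) ^ 2) = r) (poisson lam r))) := by
  classical
  refine ⟨?_, ?_, ?_⟩
  · rintro ⟨hA, hi, hp⟩
    refine ⟨gen hA, gen_meas hA, ?_⟩
    have h1 : ∀ᵐ ω ∂μ, ∀ n, (μ[(A (n + 1)).indicator (fun _ => (1 : ℝ)) | gen hA n]) ω =
        (μ (A (n + 1))).toReal := ae_all_iff.2 fun n => dens_gen hA hi n
    filter_upwards [h1] with ω hω
    refine log_ratio.congr' ?_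
    filter_upwards [eventually_ge_atTop 2] with n hn
    rw [hω, hp (n + 1) (by omega), ENNReal.toReal_ofReal, one_div]
    have : 0 ≤ Real.log ((n + 1 : ℕ) : ℝ) := Real.log_natCast_nonneg _
    positivity
  · rintro ℱ ⟨h1, h2, h3⟩
    have hs : Pool.Agent.N740.HK.HS μ ℱ A := ⟨h1, h2, fun n hn => by
      filter_upwards [h3 n hn] with ω hω
      rw [← prod_inv]
      exact hω⟩
    exact ⟨h1, Pool.Agent.N740.HK.hawk_dens hs⟩
  · rintro ℱ ⟨hA, hd⟩
    have hprof := dens_profile (μ := μ) (ℱ := ℱ) hA 1 one_pos (fun n hn => absurd (Nat.coprime_one_right n) hn) (by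
      rw [Nat.totient_one, Nat.cast_one, div_one]
      filter_upwards [hd] with ω hω
      exact hω.mono_left inf_le_left)
    refine ⟨?_, fun x hx hgr => ?_⟩
    · filter_upwards [sym_full hA hprof mid_mono mid_growth] with ω g1 lam hlam r
      refine prop_ev ?_ (g1 lam hlam r)
      filter_upwards [mid_mono.tendsto_atTop.eventually (L_sqrt (LL_lim hlam.le two_ne_zero))] with N hN
      have h1 : LL lam 2 (N ^ 2 + N + 1) ≤ N := by
        have h2 : Real.sqrt ((N ^ 2 + N + 1 : ℕ) : ℝ) ≤ (N : ℝ) + 1 := by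
          refine Real.sqrt_le_iff.2 ⟨by positivity, ?_⟩
          push_cast
          nlinarith [(Nat.cast_nonneg N : (0 : ℝ) ≤ N)]
        have h3 : ((LL lam 2 (N ^ 2 + N + 1) + 1 : ℕ) : ℝ) ≤ ((N + 1 : ℕ) : ℝ) := by
          refine hN.trans (h2.trans ?_)
          push_cast
          exact le_rfl
        have h4 : LL lam 2 (N ^ 2 + N + 1) + 1 ≤ N + 1 := by exact_mod_cast h3
        omega
      rw [inner_eq _ h1 hlam.le]
    · filter_upwards [sym_full hA hprof hx hgr] with ω g1 lam hlam r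
      refine prop_ev ?_ (g1 lam hlam r)
      filter_upwards [hx.tendsto_atTop.eventually (LL_near hlam)] with n hn
      rw [pairs_eq _ hlam.le (by have := hn.1; omega)]
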