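import Mathlib
import Pool.Agent.N893.SM.Win3
import Pool.Agent.N740.HK.Lim

/-!
# Pairs of chosen integers with a given sum near the middle, in all sieved sequential random models

The integers are decided one after the other; the multiples of the primes of a finite set `Q` are
never chosen and the conditional probability of choosing an integer `n + 1` which is not such a
multiple, given the decisions up to `n`, is asymptotic to `∏_{p ∈ Q} (1 - 1 / p)⁻¹ / log n`, almost
surely.  No independence and no rate of convergence are assumed.  In every such model, almost surely, the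
number of the representations `n = p + q` by chosen integers with `p` in an interval of length `H` just below
`n / 2` is `(1 + o(1)) 𝔖 H / log² n`, uniformly for `H / log³ n → ∞`, `H ≤ n / 8`; and every large `n` has a
representation with `q - p ≤ (2 + o(1)) log³ n / 𝔖` (unless `𝔖 = 0`).  For `n = 2 N² + 2 N + 2` this is the
question on pairs of primes between two squares.

Method (`Pool/Agent/N893/SM`): the two members of the pairs are replaced one after the other by their
probabilities; the error of one replacement is controlled by the exponential supermartingale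
`exp (θ ∑ w I - (e ^ θ - 1) ∑ w P)`, with a fixed small `θ`, and with a large negative `θ` for the nearest pair.

The notion of a sequential model and the theorem on Hawkins' sieve are from the team files by helper528
(`Pool/Agent/R528/RM`) and helper740 (`Pool/Agent/N740/HK`).
-/

set_option autoImplicit false

open MeasureTheory Filter Set
open scoped Topology

namespace Pool.Agent.Results.MP_e94e4b_nt.PairsNearTheMiddle

variable {Ω : Type}

/-- `A n` is the event that `n` is chosen; adapted to `ℱ`; multiples of the primes in `Q` are not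
chosen; the conditional probability of `A (n + 1)` given `ℱ n`, times `log n`, tends almost surely to
`∏_{p ∈ Q} (1 - 1 / p)⁻¹` along the `n` such that no `p ∈ Q` divides `n + 1` -/
def SievedModel [m : MeasurableSpace Ω] (μ : Measure Ω) (ℱ : Filtration ℕ m) (A : ℕ → Set Ω)
    (Q : Finset ℕ) : Prop :=
  (∀ n, MeasurableSet[ℱ n] (A n)) ∧ (∀ n, (∃ p ∈ Q, p ∣ n) → A n = ∅) ∧
  ∀ᵐ ω ∂μ, Tendsto (fun n : ℕ => (μ[(A (n + 1)).indicator (fun _ => (1 : ℝ)) | ℱ n]) ω * Real.log n)
    (atTop ⊓ 𝓟 {n : ℕ | ∀ p ∈ Q, ¬ p ∣ n + 1}) (𝓝 (∏ p ∈ Q, (1 - 1 / (p : ℝ))⁻¹))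

open Classical in
/-- The random sieve of Hawkins: `2` is chosen, and given the decisions up to `n ≥ 2` the number
`n + 1` is chosen with probability `∏ (1 - 1 / h)`, the product over the chosen `2 ≤ h ≤ n`. -/
def HawkinsSieve [m : MeasurableSpace Ω] (μ : Measure Ω) (ℱ : Filtration ℕ m) (A : ℕ → Set Ω) : Prop :=
  (∀ n, MeasurableSet[ℱ n] (A n)) ∧ A 2 = univ ∧
  ∀ n, 2 ≤ n → μ[(A (n + 1)).indicator (fun _ => (1 : ℝ)) | ℱ n] =ᵐ[μ]
    fun ω => ∏ h ∈ Finset.Icc 2 n, if ω ∈ A h then 1 - 1 / (h : ℝ) else 1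

/-- the number of the `p` among the `H` integers just below `n / 2` (rounded down) such that `p` and `n - p`
are chosen -/
noncomputable def pairs (A : ℕ → Set Ω) (ω : Ω) (n H : ℕ) : ℕ :=
  {p : ℕ | p < n / 2 ∧ n / 2 ≤ p + H ∧ ω ∈ A p ∧ ω ∈ A (n - p)}.ncard

/-- the singular series -/
noncomputable def sing (Q : Finset ℕ) (n : ℕ) : ℝ :=
  ∏ p ∈ Q, (1 - (if p ∣ n then 1 else 2 : ℝ) / p) / (1 - 1 / (p : ℝ)) ^ 2

open Pool.Agent.R528.RM Pool.Agent.N893.SM

lemma pairs_eq (A : ℕ → Set Ω) (ω : Ω) {n H : ℕ} (hH : 8 * H ≤ n) : (pairs A ω n H : ℝ) = RW A n H ω := by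
  classical
  have h1 : {p : ℕ | p < n / 2 ∧ n / 2 ≤ p + H ∧ ω ∈ A p ∧ ω ∈ A (n - p)} =
      (((Finset.range H).filter (fun i => ω ∈ A (n / 2 - 1 - i) ∧ ω ∈ A (n - n / 2 + 1 + i))).image
        (fun i => n / 2 - 1 - i) : Finset ℕ) := by
    ext p
    simp only [Set.mem_setOf_eq, Finset.coe_image, Finset.coe_filter, Finset.mem_range, Set.mem_image]
    constructor
    · rintro ⟨h1, h2, h3, h4⟩
      refine ⟨n / 2 - 1 - p, ⟨by omega, ?_, ?_⟩, by omega⟩
      · rwa [show n / 2 - 1 - (n / 2 - 1 - p) = p by omega]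
      · rwa [show n - n / 2 + 1 + (n / 2 - 1 - p) = n - p by omega]
    · rintro ⟨i, ⟨h1, h2, h3⟩, rfl⟩
      refine ⟨by omega, by omega, h2, ?_⟩
      rwa [show n - (n / 2 - 1 - i) = n - n / 2 + 1 + i by omega]
  unfold pairs RW
  rw [h1, Set.ncard_coe_finset, Finset.card_image_of_injOn]
  · rw [Finset.card_filter]
    push_cast
    refine Finset.sum_congr rfl fun i _ => ?_
    unfold In
    by_cases ha : ω ∈ A (n / 2 - 1 - i)
    · by_cases hb : ω ∈ A (n - n / 2 + 1 + i)
      · rw [if_pos ⟨ha, hb⟩, indicator_of_mem ha, indicator_of_mem hb, one_mul]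
      · rw [if_neg (fun h => hb h.2), indicator_of_notMem hb, mul_zero]
    · rw [if_neg (fun h => ha h.1), indicator_of_notMem ha, zero_mul]
  · intro i hi j hj h
    rw [Finset.mem_coe, Finset.mem_filter, Finset.mem_range] at hi hj
    simp only at h
    omega

end Pool.Agent.Results.MP_e94e4b_nt.PairsNearTheMiddle

open Pool.Agent.Results.MP_e94e4b_nt.PairsNearTheMiddle
open Pool.Agent.R528.RM Pool.Agent.N893.SM

/-- Hawkins' sieve is a sieved model with `Q = ∅`; and in every sieved model, almost surely: (1) for every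
`ε > 0` there is `K` such that for all large `n` and all `H` with `K log³ n ≤ H ≤ n / 8` the number of
representations `n = p + q` by chosen integers with `p` among the `H` integers below `n / 2` is
`(1 ± ε) 𝔖(n) H / log² n`; (2) for every `δ > 0` all large `n` with `𝔖(n) ≠ 0` are sums of chosen `p < q` with
`q - p ≤ (2 + δ) log³ n / 𝔖(n)`; (3) for every `δ > 0` and all large `N` there is `N < k ≤ 2 N`, with
`k ≤ N + (1 + δ) log³ n / 𝔖(n)`, `n = 2 N² + 2 N + 2`, such that `N² + k + 1` and `(N + 1)² - k` are chosen. -/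
theorem Pool.Agent.Results.MP_e94e4b_nt.PairsNearTheMiddle.result
    {Ω : Type} [m : MeasurableSpace Ω] (μ : Measure Ω) [IsProbabilityMeasure μ]
    (ℱ : Filtration ℕ m) (A : ℕ → Set Ω) :
    (HawkinsSieve μ ℱ A → SievedModel μ ℱ A ∅) ∧
    (∀ Q : Finset ℕ, (∀ p ∈ Q, p.Prime) → SievedModel μ ℱ A Q → ∀ᵐ ω ∂μ,
      (∀ ε : ℝ, 0 < ε → ∃ K : ℝ, 0 < K ∧ ∀ᶠ n : ℕ in atTop, ∀ H : ℕ,
        K * Real.log n ^ 3 ≤ H → 8 * H ≤ n →
        |(pairs A ω n H : ℝ) - sing Q n * (H / Real.log n ^ 2)| ≤ ε * (sing Q n * (H / Real.log n ^ 2))) ∧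
      (∀ δ : ℝ, 0 < δ → ∀ᶠ n : ℕ in atTop, sing Q n ≠ 0 → ∃ p q : ℕ, p + q = n ∧ p < q ∧
        (q : ℝ) - p ≤ (2 + δ) * (Real.log n ^ 3 / sing Q n) ∧ ω ∈ A p ∧ ω ∈ A q) ∧
      (∀ δ : ℝ, 0 < δ → ∀ᶠ N : ℕ in atTop, ∃ k : ℕ, N < k ∧ k ≤ 2 * N ∧
        (k : ℝ) ≤ N + (1 + δ) * (Real.log ((2 * N ^ 2 + 2 * N + 2 : ℕ) : ℝ) ^ 3 / sing Q (2 * N ^ 2 + 2 * N + 2)) ∧
        ω ∈ A (N ^ 2 + k + 1) ∧ ω ∈ A ((N + 1) ^ 2 - k))) := by
  classical
  constructor
  · rintro ⟨h1, h2, h3⟩
    have hs : Pool.Agent.N740.HK.HS μ ℱ A := ⟨h1, h2, fun n hn => by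
      filter_upwards [h3 n hn] with ω hω
      have e : (∏ h ∈ Finset.Icc 2 n, if ω ∈ A h then 1 - 1 / (h : ℝ) else 1) =
          (Pool.Agent.N740.HK.Y A n ω)⁻¹ := by
        unfold Pool.Agent.N740.HK.Y
        rw [← Finset.prod_inv_distrib]
        refine Finset.prod_congr rfl fun h hh => ?_
        have h2 : (2 : ℝ) ≤ h := by exact_mod_cast (Finset.mem_Icc.1 hh).1
        by_cases hA : ω ∈ A h
        · rw [if_pos hA, if_pos hA, inv_div]
          field_simp
        · rw [if_neg hA, if_neg hA, inv_one]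
      rw [← e]
      exact hω⟩
    refine ⟨h1, fun n hn => ?_, ?_⟩
    · obtain ⟨p, hp, _⟩ := hn
      exact absurd hp (Finset.notMem_empty p)
    · filter_upwards [Pool.Agent.N740.HK.hawk_dens hs] with ω hω
      rw [Finset.prod_empty]
      exact hω.mono_left inf_le_left
  · rintro Q hQ ⟨hA, hcop, hd⟩
    filter_upwards [nearMid (μ := μ) hA Q hQ hcop (profile (μ := μ) hA Q hQ hcop hd)] with ω hω
    have hsing : ∀ n, sing Q n = singQ Q n := fun n => rfl
    obtain ⟨h1, h2⟩ := hω
    have hWpos : 0 < ∏ p ∈ Q, p := Finset.prod_pos fun q hq => (hQ q hq).pos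
    set W := ∏ p ∈ Q, p with hW
    set c := (W : ℝ) / Nat.totient W with hc
    have hc1 : 1 ≤ c := c_one hWpos
    have hbig : ∀ B : ℝ, 0 ≤ B → ∀ᶠ n : ℕ in atTop, singQ Q n ≠ 0 → B ≤ Real.log n ^ 3 / singQ Q n := by
      intro B hB
      filter_upwards [tendsto_log.eventually_ge_atTop (1 : ℝ), tendsto_log.eventually_ge_atTop (c ^ 2 * B)] with n h5 h6 hs
      have hs0 : 0 < singQ Q n := lt_of_le_of_ne (singQ_bounds Q hQ n).1 (Ne.symm hs)
      have hL3 : Real.log (n : ℝ) ≤ Real.log n ^ 3 := by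
        have : 1 ≤ Real.log (n : ℝ) ^ 2 := one_le_pow₀ h5
        calc Real.log (n : ℝ) = Real.log n * 1 := (mul_one _).symm
          _ ≤ Real.log n * Real.log n ^ 2 := mul_le_mul_of_nonneg_left this (by linarith)
          _ = _ := by ring
      rw [le_div_iff₀ hs0]
      calc B * singQ Q n ≤ B * c ^ 2 := mul_le_mul_of_nonneg_left (singQ_bounds Q hQ n).2 hB
        _ ≤ Real.log n := by linarith
        _ ≤ _ := hL3
    refine ⟨?_, ?_, ?_⟩
    · intro ε hε
      obtain ⟨K, hK, h⟩ := h1 ε hε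
      refine ⟨K, hK, ?_⟩
      filter_upwards [h] with n hn H hKH hH
      rw [pairs_eq A ω hH, hsing]
      exact hn H hKH hH
    · intro δ hδ
      filter_upwards [h2 (δ / 4) (by positivity), hbig (2 / δ) (by positivity), eventually_ge_atTop 2] with n hn hb hn2 hs
      rw [hsing] at hs ⊢
      obtain ⟨i, hi1, hi2, ha, hb'⟩ := hn hs
      have hB := hb hs
      refine ⟨n / 2 - 1 - i, n - n / 2 + 1 + i, by omega, by omega, ?_, ha, hb'⟩
      have e1 : n - n / 2 + 1 + i ≤ (n / 2 - 1 - i) + (2 * i + 3) := by omega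
      have e2 : ((n - n / 2 + 1 + i : ℕ) : ℝ) ≤ ((n / 2 - 1 - i : ℕ) : ℝ) + (2 * i + 3) := by exact_mod_cast e1
      rw [div_le_iff₀ hδ] at hB
      nlinarith
    · intro δ hδ
      have hT : Tendsto (fun N : ℕ => 2 * N ^ 2 + 2 * N + 2) atTop atTop := by
        refine tendsto_atTop_mono (fun N => ?_) tendsto_id
        simp only [id]
        nlinarith
      have hlog : ∀ᶠ N : ℕ in atTop, 8 * (W : ℝ) * Real.log ((2 * N ^ 2 + 2 * N + 2 : ℕ) : ℝ) ^ 3 ≤ N := by
        have h3 : Tendsto (fun x : ℝ => Real.log x ^ 3 / x) atTop (𝓝 0) :=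
          (Real.isLittleO_pow_log_id_atTop (n := 3)).tendsto_div_nhds_zero
        have h4 : Tendsto (fun N : ℕ => Real.log N ^ 3 / N) atTop (𝓝 0) := h3.comp tendsto_natCast_atTop_atTop
        have h5 : Tendsto (fun N : ℕ => 8 * (W : ℝ) * 27 * (Real.log N ^ 3 / N)) atTop (𝓝 0) := by
          simpa using h4.const_mul (8 * (W : ℝ) * 27)
        filter_upwards [h5.eventually_le_const (show (0 : ℝ) < 1 by norm_num), eventually_ge_atTop 4] with N hN h6
        have hN4 : (4 : ℝ) ≤ N := by exact_mod_cast h6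
        have hN0 : (0 : ℝ) < N := by linarith
        rw [← mul_div_assoc, div_le_one hN0] at hN
        have e1 : Real.log ((2 * N ^ 2 + 2 * N + 2 : ℕ) : ℝ) ≤ 3 * Real.log N := by
          rw [show (3 : ℝ) * Real.log N = Real.log ((N : ℝ) ^ 3) by rw [Real.log_pow]; norm_num]
          refine Real.log_le_log (by positivity) ?_
          push_cast
          nlinarith [sq_nonneg (N : ℝ), mul_pos hN0 hN0]
        have e2 : 0 ≤ Real.log ((2 * N ^ 2 + 2 * N + 2 : ℕ) : ℝ) := Real.log_natCast_nonneg _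
        have e3 := pow_le_pow_left₀ e2 e1 3
        have e4 : (3 * Real.log (N : ℝ)) ^ 3 = 27 * Real.log N ^ 3 := by ring
        rw [e4] at e3
        calc 8 * (W : ℝ) * Real.log ((2 * N ^ 2 + 2 * N + 2 : ℕ) : ℝ) ^ 3 ≤ 8 * (W : ℝ) * (27 * Real.log N ^ 3) :=
              mul_le_mul_of_nonneg_left e3 (by positivity)
          _ = 8 * (W : ℝ) * 27 * Real.log N ^ 3 := by ring
          _ ≤ _ := hN
      have hδ1 : 0 < min δ 1 := lt_min hδ one_pos
      filter_upwards [hT.eventually (h2 (min δ 1) hδ1), hlog] with N hN hl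
      set n := 2 * N ^ 2 + 2 * N + 2 with hn
      have hs : singQ Q n ≠ 0 := by
        intro h0
        apply (singQ_zero hQ h0).2
        exact ⟨N ^ 2 + N + 1, by rw [hn]; ring⟩
      obtain ⟨i, hi1, hi2, ha, hb'⟩ := hN hs
      have hs0 : 0 < singQ Q n := lt_of_le_of_ne (singQ_bounds Q hQ n).1 (Ne.symm hs)
      have hsW : 1 / (W : ℝ) ≤ singQ Q n := singQ_cases Q hQ n hs
      have hWr : (0 : ℝ) < W := by exact_mod_cast hWpos
      have hY : 0 ≤ Real.log (n : ℝ) ^ 3 / singQ Q n := div_nonneg (pow_nonneg (Real.log_natCast_nonneg _) 3) hs0.le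
      have hY2 : Real.log (n : ℝ) ^ 3 / singQ Q n ≤ W * Real.log n ^ 3 := by
        rw [div_le_iff₀ hs0]
        have : 1 ≤ W * singQ Q n := by
          rw [div_le_iff₀ hWr] at hsW
          linarith
        calc Real.log (n : ℝ) ^ 3 = Real.log (n : ℝ) ^ 3 * 1 := (mul_one _).symm
          _ ≤ Real.log (n : ℝ) ^ 3 * (W * singQ Q n) := mul_le_mul_of_nonneg_left this (pow_nonneg (Real.log_natCast_nonneg _) 3)
          _ = _ := by ring
      have hiδ : (i : ℝ) + 1 ≤ (1 + δ) * (Real.log n ^ 3 / singQ Q n) :=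
        hi2.trans (mul_le_mul_of_nonneg_right (by linarith [min_le_left δ 1]) hY)
      have hi3 : (i : ℝ) + 1 ≤ 2 * (Real.log n ^ 3 / singQ Q n) :=
        hi2.trans (mul_le_mul_of_nonneg_right (by linarith [min_le_right δ 1]) hY)
      have hiN : i + 1 ≤ N := by
        have hLn : 0 ≤ (W : ℝ) * Real.log n ^ 3 := mul_nonneg hWr.le (pow_nonneg (Real.log_natCast_nonneg _) 3)
        have : (i : ℝ) + 1 ≤ N := by linarith
        exact_mod_cast this
      have hn2 : n / 2 = N ^ 2 + N + 1 := by omega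
      refine ⟨N + 1 + i, by omega, by omega, ?_, ?_, ?_⟩
      · rw [hsing]
        push_cast
        linarith
      · rwa [show N ^ 2 + (N + 1 + i) + 1 = n - n / 2 + 1 + i by omega]
      · have e1 : (N + 1) ^ 2 - (N + 1 + i) = n / 2 - 1 - i := by
          rw [hn2, show (N + 1) ^ 2 = N ^ 2 + 2 * N + 1 by ring]
          omega
        rwa [e1]
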